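import Pool.Agent.Work.MP_d4c219_nt.Lat

/-!
# The number of solutions of `q (q ^ 2 - 1) = (2, q - 1) 2 ^ a₁ 3 ^ a₂ p ^ a r ^ b`

At most `(log X) ^ 2 / 10` prime powers `q ≤ X` solve the equation, for all `X ≥ exp (10 ^ 6)`.
-/

set_option autoImplicit false

namespace Pool.Agent.Results.MP_d4c219_nt.CountingBound

open Pool.Agent.KFour

theorem result (X : ℝ) (hX : Real.exp (10 ^ 6) ≤ X) :
    ({q : ℕ | (q : ℝ) ≤ X ∧ Sol q}.ncard : ℝ) ≤ (Real.log X) ^ 2 / 10 :=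
  main_bound X hX

end Pool.Agent.Results.MP_d4c219_nt.CountingBound
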